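import Pool.Agent.H745R2.P13

set_option autoImplicit false

open Set Real

namespace Pool.Agent.Results.MP_d6150d_an.LoudLine

/-- `(x, y)` solves Loud's system `x' = -y + x y`, `y' = x + D x^2 + F y^2` at all times of `S`. -/
def Solves (D F : ℝ) (x y : ℝ → ℝ) (S : Set ℝ) : Prop :=
  ∀ t ∈ S, HasDerivAt x (-y t + x t * y t) t ∧
    HasDerivAt y (x t + D * x t ^ 2 + F * y t ^ 2) t

/-- Loud's centres on the line `F = 1 + D`, `-1/2 < D < 0`: the period function has no critical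
period, it is strictly decreasing with negative derivative.  The orbits of the period annulus are
parametrised by their intersection `(0, s)`, `s > 0`, with the positive `y`-axis; they fill the
punctured half plane `x < 1`. -/
theorem result (D : ℝ) (hD0 : -1 / 2 < D) (hD1 : D < 0) :
    ∃ (T T' : ℝ → ℝ) (X Y Θ ρ : ℝ → ℝ → ℝ),
      -- the period function is differentiable with negative derivative
      (∀ s, 0 < s → HasDerivAt T (T' s) s ∧ T' s < 0) ∧ StrictAntiOn T (Ioi 0) ∧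
      -- the orbits fill the punctured half plane `x < 1`
      (∀ p q : ℝ, p < 1 → (p ≠ 0 ∨ q ≠ 0) → ∃! s, 0 < s ∧ ∃ t, X s t = p ∧ Y s t = q) ∧
      ∀ s : ℝ, 0 < s →
        -- `(X s, Y s)` is a global solution through `(0, s)`, and the only one
        Solves D (1 + D) (X s) (Y s) univ ∧ X s 0 = 0 ∧ Y s 0 = s ∧ (∀ t, X s t < 1) ∧
        (∀ a b : ℝ, a < 0 → 0 < b → ∀ x y : ℝ → ℝ, x 0 = 0 → y 0 = s →
          Solves D (1 + D) x y (Ioo a b) → EqOn x (X s) (Ioo a b) ∧ EqOn y (Y s) (Ioo a b)) ∧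
        -- `T s` is its minimal period
        0 < T s ∧ (∀ t, X s (t + T s) = X s t) ∧ (∀ t, Y s (t + T s) = Y s t) ∧
        (∀ t, 0 < t → t < T s → ¬ (X s t = 0 ∧ 0 < Y s t)) ∧
        -- the orbit surrounds the origin exactly once
        Continuous (Θ s) ∧ StrictMono (Θ s) ∧ Θ s 0 = 0 ∧
        (∀ t, Θ s (t + T s) = Θ s t + 2 * π) ∧
        (∀ t, 0 < ρ s t ∧ X s t = -(ρ s t * sin (Θ s t)) ∧ Y s t = ρ s t * cos (Θ s t)) := by
  obtain ⟨T, T', X, Y, Θ, ρ, hT, hT2, hF, h⟩ := H745.loud_main (w := -D) (by linarith) (by linarith)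
  refine ⟨T, T', X, Y, Θ, ρ, hT, hT2, hF, fun s hs => ?_⟩
  obtain ⟨h1, h2, h3, h4, h5, h6, h7, h8, h9, h10, h11, h12, h13⟩ := h s hs
  simp only [neg_neg] at h1
  refine ⟨fun t _ => h1 t, h2, h3, h4, ?_, h5, h6, h7, h8, h9, h10, h11, h12, h13⟩
  intro a b ha hb x y hx0 hy0 hxy
  have hz : ∀ t, HasDerivAt (fun t => (X s t, Y s t)) (H745.vL D (X s t, Y s t)) t := by
    intro t
    exact (h1 t).1.prodMk (h1 t).2
  have hf : ∀ t ∈ Ioo a b, HasDerivAt (fun t => (x t, y t)) (H745.vL D (x t, y t)) t := by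
    intro t ht
    exact (hxy t ht).1.prodMk (hxy t ht).2
  have := H745.vL_unique hz ha hb hf (by simp [hx0, hy0, h2, h3])
  exact ⟨fun t ht => congrArg Prod.fst (this ht), fun t ht => congrArg Prod.snd (this ht)⟩

end Pool.Agent.Results.MP_d6150d_an.LoudLine
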